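import Mathlib

/-!
# Many k-dominating independent sets in incidence graphs of projective planes

For every `k ≥ 1` the number of `k`-dominating independent sets in the incidence graph of
`PG(2, 2^h)` is superpolynomial in the number of vertices.
-/

set_option autoImplicit false

open Configuration

namespace Pool.Agent.Results.MP_a51b5f_co.SubspaceFamily

/-- The incidence graph of a point-line structure. -/
def incGraph (P L : Type*) [Membership P L] : SimpleGraph (P ⊕ L) where
  Adj
    | Sum.inl p, Sum.inr l => p ∈ l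
    | Sum.inr l, Sum.inl p => p ∈ l
    | _, _ => False
  symm := ⟨by rintro (a | a) (b | b) h <;> exact h⟩
  loopless := ⟨by rintro (a | a) h <;> exact h⟩

/-- `D` is a `k`-dominating independent set of `G`. -/
def IsKDIS {V : Type*} (G : SimpleGraph V) (k : ℕ) (D : Set V) : Prop :=
  (∀ u ∈ D, ∀ v ∈ D, ¬ G.Adj u v) ∧ ∀ v, v ∉ D → k ≤ (G.neighborSet v ∩ D).ncard

/-- Points of the plane over `K`: affine points, points at infinity by slope, and the point at
infinity of the vertical lines. -/
inductive Pt (K : Type)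
  | aff (x y : K)
  | dir (m : K)
  | vert

/-- Lines of the plane over `K`: `y = m x + c`, `x = c`, and the line at infinity. -/
inductive Ln (K : Type)
  | slope (m c : K)
  | vline (c : K)
  | infty

variable {K : Type} [Field K]

/-- Incidence. -/
def inc : Pt K → Ln K → Prop
  | Pt.aff x y, Ln.slope m c => y = m * x + c
  | Pt.aff x _, Ln.vline c => x = c
  | Pt.aff _ _, Ln.infty => False
  | Pt.dir m, Ln.slope m' _ => m = m'
  | Pt.dir _, Ln.vline _ => False
  | Pt.dir _, Ln.infty => True
  | Pt.vert, Ln.slope _ _ => False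
  | Pt.vert, Ln.vline _ => True
  | Pt.vert, Ln.infty => True

instance : Membership (Pt K) (Ln K) := ⟨fun l p => inc p l⟩

lemma mem_iff {p : Pt K} {l : Ln K} : p ∈ l ↔ inc p l := Iff.rfl

lemma exists_pt (l₁ l₂ : Ln K) : ∃ p : Pt K, p ∈ l₁ ∧ p ∈ l₂ := by
  simp only [mem_iff]
  rcases l₁ with ⟨m, c⟩ | c | _ <;> rcases l₂ with ⟨m', c'⟩ | c' | _
  · by_cases h : m = m'
    · exact ⟨Pt.dir m, rfl, h⟩
    · have hne : m - m' ≠ 0 := sub_ne_zero.2 h
      refine ⟨Pt.aff ((c' - c) / (m - m')) (m * ((c' - c) / (m - m')) + c), rfl, ?_⟩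
      simp only [inc]
      field_simp
      ring
  · exact ⟨Pt.aff c' (m * c' + c), rfl, rfl⟩
  · exact ⟨Pt.dir m, rfl, trivial⟩
  · exact ⟨Pt.aff c (m' * c + c'), rfl, rfl⟩
  · exact ⟨Pt.vert, trivial, trivial⟩
  · exact ⟨Pt.vert, trivial, trivial⟩
  · exact ⟨Pt.dir m', trivial, rfl⟩
  · exact ⟨Pt.vert, trivial, trivial⟩
  · exact ⟨Pt.vert, trivial, trivial⟩

lemma exists_ln (p₁ p₂ : Pt K) : ∃ l : Ln K, p₁ ∈ l ∧ p₂ ∈ l := by
  simp only [mem_iff]
  rcases p₁ with ⟨x, y⟩ | m | _ <;> rcases p₂ with ⟨x', y'⟩ | m' | _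
  · by_cases h : x = x'
    · exact ⟨Ln.vline x, rfl, h.symm⟩
    · have hne : x - x' ≠ 0 := sub_ne_zero.2 h
      refine ⟨Ln.slope ((y - y') / (x - x')) (y - (y - y') / (x - x') * x), ?_, ?_⟩
      · simp only [inc]; ring
      · simp only [inc]
        field_simp
        ring
  · refine ⟨Ln.slope m' (y - m' * x), ?_, rfl⟩
    simp only [inc]; ring
  · exact ⟨Ln.vline x, rfl, trivial⟩
  · refine ⟨Ln.slope m (y' - m * x'), rfl, ?_⟩
    simp only [inc]; ring
  · exact ⟨Ln.infty, trivial, trivial⟩
  · exact ⟨Ln.infty, trivial, trivial⟩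
  · exact ⟨Ln.vline x', trivial, rfl⟩
  · exact ⟨Ln.infty, trivial, trivial⟩
  · exact ⟨Ln.infty, trivial, trivial⟩

lemma eq_or_eq' {p₁ p₂ : Pt K} {l₁ l₂ : Ln K} (h1 : p₁ ∈ l₁) (h2 : p₂ ∈ l₁) (h3 : p₁ ∈ l₂)
    (h4 : p₂ ∈ l₂) : p₁ = p₂ ∨ l₁ = l₂ := by
  simp only [mem_iff] at h1 h2 h3 h4
  rcases p₁ with ⟨x, y⟩ | n | _ <;> rcases p₂ with ⟨x', y'⟩ | n' | _ <;>
  rcases l₁ with ⟨m, c⟩ | c | _ <;> rcases l₂ with ⟨m', c'⟩ | c' | _ <;>
  simp only [inc] at h1 h2 h3 h4 <;> simp_all
  · by_cases hm : m = m'
    · right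
      subst hm
      exact ⟨rfl, (add_left_cancel h1).symm⟩
    · left
      have h5 : (m - m') * (x - x') = 0 := by linear_combination h2 - h1
      rcases mul_eq_zero.1 h5 with h | h
      · exact absurd (sub_eq_zero.1 h) hm
      · have hx : x = x' := sub_eq_zero.1 h
        subst hx
        exact ⟨rfl, Or.inl rfl⟩

noncomputable instance : ProjectivePlane (Pt K) (Ln K) where
  exists_point := by
    rintro (⟨m, c⟩ | c | _)
    · exact ⟨Pt.vert, fun h => h⟩
    · exact ⟨Pt.dir 0, fun h => h⟩
    · exact ⟨Pt.aff 0 0, fun h => h⟩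
  exists_line := by
    rintro (⟨x, y⟩ | m | _)
    · exact ⟨Ln.infty, fun h => h⟩
    · exact ⟨Ln.vline 0, fun h => h⟩
    · exact ⟨Ln.slope 0 0, fun h => h⟩
  eq_or_eq := eq_or_eq'
  mkPoint := fun {l₁ l₂} _ => (exists_pt l₁ l₂).choose
  mkPoint_ax := fun {l₁ l₂} _ => (exists_pt l₁ l₂).choose_spec
  mkLine := fun {p₁ p₂} _ => (exists_ln p₁ p₂).choose
  mkLine_ax := fun {p₁ p₂} _ => (exists_ln p₁ p₂).choose_spec
  exists_config := by
    refine ⟨Pt.vert, Pt.aff 0 0, Pt.aff 1 0, Ln.infty, Ln.slope 0 0, Ln.slope 1 0, ?_, ?_, ?_, ?_,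
      ?_, ?_, ?_, ?_⟩
    all_goals simp only [mem_iff, inc]
    all_goals simp

/-! ### Linear algebra over the field with two elements -/

section Linear

variable [Algebra (ZMod 2) K]

/-- The orthogonal complement with respect to the trace form. -/
noncomputable def orth (W : Submodule (ZMod 2) K) : Submodule (ZMod 2) K :=
  (Algebra.traceForm (ZMod 2) K).orthogonal W

/-- The absolute trace of `K` over the field with two elements. -/
noncomputable def tr (x : K) : ZMod 2 := Algebra.trace (ZMod 2) K x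

lemma tr_add (x y : K) : tr (x + y) = tr x + tr y := map_add _ _ _

lemma tr_zero : tr (0 : K) = 0 := map_zero _

lemma mem_orth {W : Submodule (ZMod 2) K} {x : K} : x ∈ orth W ↔ ∀ a ∈ W, tr (a * x) = 0 := by
  unfold orth
  rw [LinearMap.BilinForm.mem_orthogonal_iff]
  rfl

variable [Fintype K]

lemma finite_dim : FiniteDimensional (ZMod 2) K := Module.Finite.of_finite

lemma nondeg : (Algebra.traceForm (ZMod 2) K).Nondegenerate := by
  have := finite_dim (K := K)
  exact traceForm_nondegenerate _ _

lemma orth_orth (W : Submodule (ZMod 2) K) : orth (orth W) = W := by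
  have := finite_dim (K := K)
  exact LinearMap.BilinForm.orthogonal_orthogonal nondeg
    (Algebra.traceForm_isSymm (ZMod 2)).isRefl W

lemma finrank_orth (W : Submodule (ZMod 2) K) :
    Module.finrank (ZMod 2) (orth W) = Module.finrank (ZMod 2) K - Module.finrank (ZMod 2) W := by
  have := finite_dim (K := K)
  exact LinearMap.BilinForm.finrank_orthogonal nondeg W

lemma ncard_sub (W : Submodule (ZMod 2) K) :
    (W : Set K).ncard = 2 ^ (Module.finrank (ZMod 2) W) := by
  have := finite_dim (K := K)
  rw [← Nat.card_coe_set_eq]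
  have h := Module.natCard_eq_pow_finrank (K := ZMod 2) (V := W)
  rw [Nat.card_zmod] at h
  exact h

lemma two_cases (z : ZMod 2) : z = 0 ∨ z = 1 := by
  revert z; decide

/-- Half of a subspace. -/
lemma half_sub (W : Submodule (ZMod 2) K) (x : K) (hx : x ∉ orth W) (e : ZMod 2) :
    2 ^ (Module.finrank (ZMod 2) W) ≤ 2 * {b : K | b ∈ W ∧ tr (b * x) = e}.ncard := by
  have hb : ∃ b0 ∈ W, tr (b0 * x) = 1 := by
    by_contra hcon
    push Not at hcon
    apply hx
    rw [mem_orth]
    intro a ha
    rcases two_cases (tr (a * x)) with h | h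
    · exact h
    · exact absurd h (hcon a ha)
  obtain ⟨b0, hb0, hb1⟩ := hb
  rw [← ncard_sub]
  have hsub : (W : Set K) ⊆ {b : K | b ∈ W ∧ tr (b * x) = e} ∪
      (fun b => b + b0) '' {b : K | b ∈ W ∧ tr (b * x) = e} := by
    intro b hbW
    by_cases h : tr (b * x) = e
    · left; exact ⟨hbW, h⟩
    · right
      refine ⟨b - b0, ⟨W.sub_mem hbW hb0, ?_⟩, by simp⟩
      have h1 : tr (b * x) = tr ((b - b0) * x) + tr (b0 * x) := by
        rw [← tr_add]; congr 1; ring
      rw [hb1] at h1
      rw [h1] at h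
      revert h
      generalize tr ((b - b0) * x) = z
      revert z e
      decide
  calc (W : Set K).ncard ≤ _ := Set.ncard_le_ncard hsub (Set.toFinite _)
    _ ≤ {b : K | b ∈ W ∧ tr (b * x) = e}.ncard +
        ((fun b => b + b0) '' {b : K | b ∈ W ∧ tr (b * x) = e}).ncard := Set.ncard_union_le _ _
    _ ≤ {b : K | b ∈ W ∧ tr (b * x) = e}.ncard + {b : K | b ∈ W ∧ tr (b * x) = e}.ncard :=
        Nat.add_le_add_left (Set.ncard_image_le (Set.toFinite _)) _
    _ = 2 * {b : K | b ∈ W ∧ tr (b * x) = e}.ncard := by ring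

/-- Many solutions: if `c` is orthogonal to all `a ∈ W` with `a m ∈ W`, then there are many
`x` in the orthogonal complement of `W` with `m x + c` in it. -/
lemma many (W : Submodule (ZMod 2) K) (r s : ℕ) (hr : Module.finrank (ZMod 2) W = r)
    (hh : Module.finrank (ZMod 2) K = 2 * r + s) (m c : K)
    (hc : ∀ a ∈ W, a * m ∈ W → tr (a * c) = 0) :
    2 ^ s ≤ {x : K | x ∈ orth W ∧ m * x + c ∈ orth W}.ncard := by
  classical
  have := finite_dim (K := K)
  have : CharP K 2 := by
    have h1 : CharP (ZMod 2) 2 := ZMod.charP 2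
    exact charP_of_injective_algebraMap (algebraMap (ZMod 2) K).injective 2
  -- a particular solution
  have hmem : c ∈ (orth W) ⊔ (orth W).map (LinearMap.mulLeft (ZMod 2) m) := by
    rw [← orth_orth ((orth W) ⊔ (orth W).map (LinearMap.mulLeft (ZMod 2) m)), mem_orth]
    intro a ha
    rw [mem_orth] at ha
    apply hc a
    · rw [← orth_orth W, mem_orth]
      intro x hx
      exact ha x (Submodule.mem_sup_left hx)
    · rw [← orth_orth W, mem_orth]
      intro x hx
      have h1 : m * x ∈ (orth W) ⊔ (orth W).map (LinearMap.mulLeft (ZMod 2) m) :=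
        Submodule.mem_sup_right ⟨x, hx, rfl⟩
      have h2 := ha _ h1
      rw [← h2]; congr 1; ring
  obtain ⟨y, hy, z, hz, hyz⟩ := Submodule.mem_sup.1 hmem
  obtain ⟨x0, hx0, rfl⟩ := hz
  have hx0' : m * x0 + c ∈ orth W := by
    rw [← hyz]
    have : m * x0 + (y + LinearMap.mulLeft (ZMod 2) m x0) = y := by
      rw [LinearMap.mulLeft_apply]
      have h2 : m * x0 + m * x0 = 0 := CharTwo.add_self_eq_zero _
      linear_combination h2
    rw [this]; exact hy
  -- the homogeneous solutions
  let U : Submodule (ZMod 2) K := orth (W ⊔ W.map (LinearMap.mulLeft (ZMod 2) m))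
  have hU : s ≤ Module.finrank (ZMod 2) U := by
    have h1 := finrank_orth (W ⊔ W.map (LinearMap.mulLeft (ZMod 2) m))
    have h2 := Submodule.finrank_add_le_finrank_add_finrank W
      (W.map (LinearMap.mulLeft (ZMod 2) m))
    have h3 := Submodule.finrank_map_le (LinearMap.mulLeft (ZMod 2) m) W
    show s ≤ Module.finrank (ZMod 2) (orth (W ⊔ W.map (LinearMap.mulLeft (ZMod 2) m)))
    omega
  have hsub : (fun u => u + x0) '' (U : Set K) ⊆ {x : K | x ∈ orth W ∧ m * x + c ∈ orth W} := by
    rintro _ ⟨u, hu, rfl⟩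
    have hu' : ∀ a ∈ W ⊔ W.map (LinearMap.mulLeft (ZMod 2) m), tr (a * u) = 0 := mem_orth.1 hu
    refine ⟨(orth W).add_mem ?_ hx0, ?_⟩
    · rw [mem_orth]
      intro a ha
      exact hu' a (Submodule.mem_sup_left ha)
    · have h1 : m * (u + x0) + c = m * u + (m * x0 + c) := by ring
      show m * (u + x0) + c ∈ orth W
      rw [h1]
      refine (orth W).add_mem ?_ hx0'
      rw [mem_orth]
      intro a ha
      have h2 := hu' (m * a) (Submodule.mem_sup_right ⟨a, ha, rfl⟩)
      rw [← h2]; congr 1; ring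
  calc 2 ^ s ≤ 2 ^ (Module.finrank (ZMod 2) U) := Nat.pow_le_pow_right (by norm_num) hU
    _ = (U : Set K).ncard := (ncard_sub U).symm
    _ = ((fun u => u + x0) '' (U : Set K)).ncard :=
        (Set.InjOn.ncard_image (add_left_injective x0).injOn).symm
    _ ≤ _ := Set.ncard_le_ncard hsub (Set.toFinite _)

lemma orth_top : orth (⊤ : Submodule (ZMod 2) K) = ⊥ := by
  have h : orth (⊥ : Submodule (ZMod 2) K) = ⊤ := by
    rw [Submodule.eq_top_iff']
    intro x
    rw [mem_orth]
    intro a ha
    rw [(Submodule.mem_bot _).1 ha, zero_mul, tr_zero]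
  rw [← h, orth_orth]

end Linear

/-! ### The independent dominating sets -/

/-- Points as a sum type. -/
def ptEquiv (K : Type) : Pt K ≃ (K × K) ⊕ Option K where
  toFun
    | Pt.aff x y => Sum.inl (x, y)
    | Pt.dir m => Sum.inr (some m)
    | Pt.vert => Sum.inr none
  invFun
    | Sum.inl (x, y) => Pt.aff x y
    | Sum.inr (some m) => Pt.dir m
    | Sum.inr none => Pt.vert
  left_inv := by rintro (_ | _ | _) <;> rfl
  right_inv := by rintro (⟨_, _⟩ | (_ | _)) <;> rfl

/-- Lines as a sum type. -/
def lnEquiv (K : Type) : Ln K ≃ (K × K) ⊕ Option K where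
  toFun
    | Ln.slope x y => Sum.inl (x, y)
    | Ln.vline m => Sum.inr (some m)
    | Ln.infty => Sum.inr none
  invFun
    | Sum.inl (x, y) => Ln.slope x y
    | Sum.inr (some m) => Ln.vline m
    | Sum.inr none => Ln.infty
  left_inv := by rintro (_ | _ | _) <;> rfl
  right_inv := by rintro (⟨_, _⟩ | (_ | _)) <;> rfl

noncomputable instance {K : Type} [Fintype K] : Fintype (Pt K) :=
  Fintype.ofEquiv _ (ptEquiv K).symm

noncomputable instance {K : Type} [Fintype K] : Fintype (Ln K) :=
  Fintype.ofEquiv _ (lnEquiv K).symm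

lemma card_pt (K : Type) [Fintype K] :
    Fintype.card (Pt K) = Fintype.card K ^ 2 + Fintype.card K + 1 := by
  rw [Fintype.card_congr (ptEquiv K), Fintype.card_sum, Fintype.card_prod, Fintype.card_option]
  ring

lemma card_ln (K : Type) [Fintype K] :
    Fintype.card (Ln K) = Fintype.card K ^ 2 + Fintype.card K + 1 := by
  rw [Fintype.card_congr (lnEquiv K), Fintype.card_sum, Fintype.card_prod, Fintype.card_option]
  ring

section Main

variable [Fintype K] [Algebra (ZMod 2) K]

/-- The points of the set attached to `W`. -/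
def inX (W : Submodule (ZMod 2) K) : Pt K → Prop
  | Pt.aff x y => x ∈ orth W ∧ y ∈ orth W
  | Pt.dir m => ∀ a ∈ W, a * m ∈ W → a = 0
  | Pt.vert => False

/-- The lines of the set attached to `W`. -/
def inY (W : Submodule (ZMod 2) K) : Ln K → Prop
  | Ln.slope m c => ∃ a ∈ W, a * m ∈ W ∧ tr (a * c) ≠ 0
  | Ln.vline c => c ∉ orth W
  | Ln.infty => False

/-- The set attached to `W`. -/
def setD (W : Submodule (ZMod 2) K) : Set (Pt K ⊕ Ln K) := {v | Sum.elim (inX W) (inY W) v}

lemma inl_mem {W : Submodule (ZMod 2) K} {p : Pt K} : Sum.inl p ∈ setD W ↔ inX W p := Iff.rfl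

lemma inr_mem {W : Submodule (ZMod 2) K} {l : Ln K} : Sum.inr l ∈ setD W ↔ inY W l := Iff.rfl

lemma indep {W : Submodule (ZMod 2) K} {p : Pt K} {l : Ln K} (hp : inX W p) (hl : inY W l) :
    ¬ inc p l := by
  intro h
  rcases p with ⟨x, y⟩ | m | _ <;> rcases l with ⟨m', c⟩ | c | _ <;> simp only [inc] at h <;>
    simp only [inX, inY] at hp hl
  · obtain ⟨a, ha, ham, hac⟩ := hl
    apply hac
    have h1 := mem_orth.1 hp.2 a ha
    have h2 := mem_orth.1 hp.1 (a * m') ham
    rw [h] at h1
    have h3 : a * (m' * x + c) = a * m' * x + a * c := by ring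
    rw [h3, tr_add, h2, zero_add] at h1
    exact h1
  · rw [h] at hp
    exact hl hp.1
  · obtain ⟨a, ha, ham, hac⟩ := hl
    rw [← h] at ham
    rw [hp a ha ham, zero_mul] at hac
    exact hac tr_zero

lemma ncard_bound {α : Type} {W : Submodule (ZMod 2) K} {v : Pt K ⊕ Ln K} (S : Set α)
    (f : α → Pt K ⊕ Ln K) (hf : Function.Injective f)
    (h : ∀ a ∈ S, (incGraph (Pt K) (Ln K)).Adj v (f a) ∧ f a ∈ setD W) :
    S.ncard ≤ ((incGraph (Pt K) (Ln K)).neighborSet v ∩ setD W).ncard := by
  rw [← Set.InjOn.ncard_image (hf.injOn (s := S))]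
  apply Set.ncard_le_ncard _ (Set.toFinite _)
  rintro _ ⟨a, ha, rfl⟩
  exact h a ha

lemma isKDIS (W : Submodule (ZMod 2) K) (k r s : ℕ) (hk : 1 ≤ k)
    (hr : Module.finrank (ZMod 2) W = r)
    (hh : Module.finrank (ZMod 2) K = 2 * r + s) (hkr : 2 * k ≤ 2 ^ r) (hks : k + 1 ≤ 2 ^ s) :
    IsKDIS (incGraph (Pt K) (Ln K)) k (setD W) := by
  classical
  have hfd := finite_dim (K := K)
  have hr1 : 1 ≤ r := by
    by_contra h
    have : r = 0 := by omega
    subst this
    simp at hkr
    omega
  have hpow1 : 2 ^ r ≤ 2 ^ (2 * r + s) := Nat.pow_le_pow_right (by norm_num) (by omega)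
  -- a nonzero element of `W`
  have hne : ∃ a ∈ W, a ≠ 0 := by
    by_contra hcon
    push Not at hcon
    have : W = ⊥ := by
      rw [Submodule.eq_bot_iff]
      exact hcon
    rw [this, finrank_bot] at hr
    omega
  -- many elements with trace one against a nonzero element
  have htop : ∀ a : K, a ≠ 0 → k ≤ {c : K | tr (c * a) = 1}.ncard := by
    intro a ha
    have h1 := half_sub (⊤ : Submodule (ZMod 2) K) a (by
      rw [orth_top]; exact fun h => ha ((Submodule.mem_bot _).1 h)) 1
    rw [finrank_top, hh] at h1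
    have h2 : {b : K | b ∈ (⊤ : Submodule (ZMod 2) K) ∧ tr (b * a) = 1} =
        {c : K | tr (c * a) = 1} := by
      ext c; simp
    rw [h2] at h1
    omega
  refine ⟨?_, ?_⟩
  · rintro (p | l) hu (p' | l') hv hadj
    · exact hadj
    · exact indep hu hv hadj
    · exact indep hv hu hadj
    · exact hadj
  · rintro (p | l) hv
    · rcases p with ⟨x, y⟩ | m | _
      · -- affine points
        rw [inl_mem] at hv
        simp only [inX, not_and_or] at hv
        have hex : ∃ a ∈ W, a ≠ 0 ∧ k ≤ {b : K | b ∈ W ∧ tr (b * x) = tr (a * y) + 1}.ncard := by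
          by_cases hx : x ∈ orth W
          · have hy : y ∉ orth W := by
              rcases hv with h | h
              · exact absurd hx h
              · exact h
            rw [mem_orth] at hy
            push Not at hy
            obtain ⟨a, ha, hay⟩ := hy
            refine ⟨a, ha, ?_, ?_⟩
            · rintro rfl
              rw [zero_mul] at hay
              exact hay tr_zero
            · have h1 : tr (a * y) = 1 := by
                rcases two_cases (tr (a * y)) with h | h
                · exact absurd h hay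
                · exact h
              have h2 : {b : K | b ∈ W ∧ tr (b * x) = tr (a * y) + 1} = (W : Set K) := by
                ext b
                rw [h1]
                constructor
                · exact fun h => h.1
                · intro hb
                  refine ⟨hb, ?_⟩
                  rw [mem_orth.1 hx b hb]
                  decide
              rw [h2, ncard_sub, hr]
              omega
          · obtain ⟨a, ha, ha0⟩ := hne
            refine ⟨a, ha, ha0, ?_⟩
            have h1 := half_sub W x hx (tr (a * y) + 1)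
            rw [hr] at h1
            omega
        obtain ⟨a, ha, ha0, hcount⟩ := hex
        refine hcount.trans ?_
        apply ncard_bound _ (fun b => Sum.inr (Ln.slope (b / a) (y - b / a * x)))
        · intro b b' h
          simp only [Sum.inr.injEq, Ln.slope.injEq] at h
          have := h.1
          field_simp at this
          exact this
        · rintro b ⟨hb, hbt⟩
          refine ⟨?_, ?_⟩
          · show y = b / a * x + (y - b / a * x)
            ring
          · rw [inr_mem]
            refine ⟨a, ha, ?_, ?_⟩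
            · rw [mul_div_cancel₀ b ha0]; exact hb
            · have h1 : a * y = a * (y - b / a * x) + b * x := by
                field_simp; ring
              have h2 : tr (a * y) = tr (a * (y - b / a * x)) + tr (b * x) := by
                rw [← tr_add, ← h1]
              rw [hbt] at h2
              intro h3
              rw [h3] at h2
              revert h2
              generalize tr (a * y) = z
              revert z
              decide
      · -- directions
        rw [inl_mem] at hv
        simp only [inX] at hv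
        push Not at hv
        obtain ⟨a, ha, ham, ha0⟩ := hv
        refine (htop a ha0).trans ?_
        apply ncard_bound _ (fun c => Sum.inr (Ln.slope m c))
        · intro c c' h
          simpa using h
        · intro c hc
          refine ⟨rfl, a, ha, ham, ?_⟩
          rw [mul_comm a c, hc]
          decide
      · -- the vertical direction
        obtain ⟨a, ha, ha0⟩ := hne
        refine (htop a ha0).trans ?_
        apply ncard_bound _ (fun c => Sum.inr (Ln.vline c))
        · intro c c' h
          simpa using h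
        · intro c hc
          refine ⟨trivial, ?_⟩
          rw [inr_mem]
          simp only [inY]
          rw [mem_orth]
          push Not
          refine ⟨a, ha, ?_⟩
          rw [mul_comm a c, hc]
          decide
    · rcases l with ⟨m, c⟩ | c | _
      · rw [inr_mem] at hv
        simp only [inY] at hv
        push Not at hv
        have h1 := many W r s hr hh m c hv
        refine le_trans (by omega) (h1.trans ?_)
        apply ncard_bound _ (fun x => Sum.inl (Pt.aff x (m * x + c)))
        · intro x x' h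
          simp only [Sum.inl.injEq, Pt.aff.injEq] at h
          exact h.1
        · intro x hx
          exact ⟨rfl, hx⟩
      · rw [inr_mem] at hv
        simp only [inY, not_not] at hv
        have h1 : k ≤ ((orth W : Submodule (ZMod 2) K) : Set K).ncard := by
          rw [ncard_sub, finrank_orth, hr, hh]
          have h2 : 2 ^ s ≤ 2 ^ (2 * r + s - r) := Nat.pow_le_pow_right (by norm_num) (by omega)
          omega
        refine h1.trans ?_
        apply ncard_bound _ (fun y => Sum.inl (Pt.aff c y))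
        · intro x x' h
          simpa using h
        · intro y hy
          exact ⟨rfl, hv, hy⟩
      · -- the line at infinity
        have h1 : {m : K | ∃ a ∈ W, a * m ∈ W ∧ a ≠ 0}.ncard ≤ 2 ^ r * 2 ^ r := by
          have hsub : {m : K | ∃ a ∈ W, a * m ∈ W ∧ a ≠ 0} ⊆
              (fun p : K × K => p.2 / p.1) '' ((W : Set K) ×ˢ (W : Set K)) := by
            rintro m ⟨a, ha, ham, ha0⟩
            refine ⟨(a, a * m), ⟨ha, ham⟩, ?_⟩
            simp only
            field_simp
          calc _ ≤ _ := Set.ncard_le_ncard hsub (Set.toFinite _)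
            _ ≤ ((W : Set K) ×ˢ (W : Set K)).ncard := Set.ncard_image_le (Set.toFinite _)
            _ = 2 ^ r * 2 ^ r := by rw [Set.ncard_prod, ncard_sub, hr]
        have h2 : (Set.univ : Set K).ncard = 2 ^ (2 * r + s) := by
          have := ncard_sub (⊤ : Submodule (ZMod 2) K)
          rw [finrank_top, hh] at this
          exact this
        have h3 : (Set.univ : Set K) ⊆ {m : K | ∃ a ∈ W, a * m ∈ W ∧ a ≠ 0} ∪
            {m : K | inX W (Pt.dir m)} := by
          intro m _
          by_cases h : inX W (Pt.dir m)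
          · right; exact h
          · left
            simp only [inX] at h
            push Not at h
            exact h
        have h4 := (Set.ncard_le_ncard h3 (Set.toFinite _)).trans (Set.ncard_union_le _ _)
        rw [h2, pow_add, pow_mul, sq, mul_pow] at h4
        have h5 : k ≤ {m : K | inX W (Pt.dir m)}.ncard := by
          have h6 : 2 ^ r * 2 ^ r * (k + 1) ≤ 2 ^ r * 2 ^ r * 2 ^ s := Nat.mul_le_mul_left _ hks
          have h7 : 1 * k ≤ 2 ^ r * 2 ^ r * k :=
            Nat.mul_le_mul_right _ (Nat.one_le_iff_ne_zero.2 (by positivity))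
          rw [Nat.mul_add, Nat.mul_one] at h6
          omega
        refine h5.trans ?_
        apply ncard_bound _ (fun m => Sum.inl (Pt.dir m))
        · intro x x' h
          simpa using h
        · intro m hm
          exact ⟨trivial, hm⟩

lemma setD_inj : Function.Injective (setD : Submodule (ZMod 2) K → Set (Pt K ⊕ Ln K)) := by
  intro W W' h
  rw [← orth_orth W, ← orth_orth W']
  congr 1
  ext x
  have h1 : Sum.inl (Pt.aff x 0) ∈ setD W ↔ Sum.inl (Pt.aff x 0) ∈ setD W' := by rw [h]
  rw [inl_mem, inl_mem] at h1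
  simpa [inX, Submodule.zero_mem] using h1

/-- The number of subspaces. -/
lemma many_subspaces (r t : ℕ) (hh : Module.finrank (ZMod 2) K = r + t) :
    2 ^ (r * t) ≤ {W : Submodule (ZMod 2) K | Module.finrank (ZMod 2) W = r}.ncard := by
  classical
  have hfd := finite_dim (K := K)
  have e : ((Fin r → ZMod 2) × (Fin t → ZMod 2)) ≃ₗ[ZMod 2] K := by
    apply LinearEquiv.ofFinrankEq
    rw [Module.finrank_prod, Module.finrank_fin_fun, Module.finrank_fin_fun, hh]
  let f : ((Fin r → ZMod 2) →ₗ[ZMod 2] (Fin t → ZMod 2)) → Submodule (ZMod 2) K :=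
    fun A => (LinearMap.graph A).map e.toLinearMap
  have hf : Function.Injective f := by
    intro A B hAB
    have h1 : LinearMap.graph A = LinearMap.graph B :=
      Submodule.map_injective_of_injective e.injective hAB
    apply LinearMap.ext
    intro x
    have h2 : (x, A x) ∈ LinearMap.graph B := by
      rw [← h1, LinearMap.mem_graph_iff]
    rw [LinearMap.mem_graph_iff] at h2
    exact h2
  have hcard : Nat.card ((Fin r → ZMod 2) →ₗ[ZMod 2] (Fin t → ZMod 2)) = 2 ^ (r * t) := by
    have h := Module.natCard_eq_pow_finrank (K := ZMod 2)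
      (V := (Fin r → ZMod 2) →ₗ[ZMod 2] (Fin t → ZMod 2))
    rw [Nat.card_zmod, Module.finrank_linearMap, Module.finrank_fin_fun,
      Module.finrank_fin_fun] at h
    exact h
  rw [← hcard, ← Set.ncard_univ, ← Set.InjOn.ncard_image hf.injOn]
  apply Set.ncard_le_ncard _ (Set.toFinite _)
  rintro _ ⟨A, _, rfl⟩
  show Module.finrank (ZMod 2) ((LinearMap.graph A).map e.toLinearMap) = r
  rw [LinearEquiv.finrank_map_eq, LinearMap.graph_eq_range_prod,
    LinearMap.finrank_range_of_inj, Module.finrank_fin_fun]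
  intro x y hxy
  exact congrArg Prod.fst hxy

/-- Lower bound for the number of `k`-dominating independent sets. -/
lemma count (k r s : ℕ) (hk : 1 ≤ k) (hh : Module.finrank (ZMod 2) K = 2 * r + s)
    (hkr : 2 * k ≤ 2 ^ r) (hks : k + 1 ≤ 2 ^ s) :
    2 ^ (r * (r + s)) ≤ {D | IsKDIS (incGraph (Pt K) (Ln K)) k D}.ncard := by
  refine (many_subspaces (K := K) r (r + s) (by omega)).trans ?_
  rw [← Set.InjOn.ncard_image (setD_inj (K := K)).injOn]
  apply Set.ncard_le_ncard _ (Set.toFinite _)
  rintro _ ⟨W, hW, rfl⟩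
  exact isKDIS W k r s hk hW hh hkr hks

end Main

/-- For all `k ≥ 1` and all `r`, `s` with `2k ≤ 2^r` and `k + 1 ≤ 2^s` there is a projective plane
of order `q = 2^(2r+s)` whose incidence graph has at least `2^(r(r+s))` `k`-dominating independent
sets. -/
lemma exists_plane (k r s : ℕ) (hk : 1 ≤ k) (hkr : 2 * k ≤ 2 ^ r) (hks : k + 1 ≤ 2 ^ s) :
    ∃ (P L : Type) (_ : Fintype P) (_ : Fintype L) (_ : Membership P L)
      (_ : ProjectivePlane P L),
      Fintype.card P = (2 ^ (2 * r + s)) ^ 2 + 2 ^ (2 * r + s) + 1 ∧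
      Fintype.card L = (2 ^ (2 * r + s)) ^ 2 + 2 ^ (2 * r + s) + 1 ∧
      2 ^ (r * (r + s)) ≤ {D | IsKDIS (incGraph P L) k D}.ncard := by
  classical
  have hs : s ≠ 0 := by
    rintro rfl
    simp at hks
    omega
  have hne : 2 * r + s ≠ 0 := by omega
  have : Finite (GaloisField 2 (2 * r + s)) := Nat.finite_of_card_ne_zero (by
    rw [GaloisField.card 2 _ hne]; positivity)
  let _ : Fintype (GaloisField 2 (2 * r + s)) := Fintype.ofFinite _
  have hcard : Fintype.card (GaloisField 2 (2 * r + s)) = 2 ^ (2 * r + s) := by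
    rw [← Nat.card_eq_fintype_card, GaloisField.card 2 _ hne]
  refine ⟨Pt (GaloisField 2 (2 * r + s)), Ln (GaloisField 2 (2 * r + s)), inferInstance,
    inferInstance, inferInstance, inferInstance, ?_, ?_, ?_⟩
  · rw [card_pt, hcard]
  · rw [card_ln, hcard]
  · exact count k r s hk (GaloisField.finrank 2 hne) hkr hks

/-- Main result. For every `k ≥ 1`, the maximum number of `k`-dominating independent sets in
incidence graphs of projective planes is not bounded by a polynomial in the number of vertices: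
for all real `C`, `c` there is a finite projective plane whose incidence graph has, with `n`
vertices, more than `C n^c` such sets. Quantitatively, for all `r`, `s` with `2k ≤ 2^r` and
`k + 1 ≤ 2^s` some plane of order `2^(2r+s)` has at least `2^(r(r+s))` of them. -/
theorem result :
    (∀ k : ℕ, 1 ≤ k → ∀ C c : ℝ, ∃ (P L : Type) (_ : Fintype P) (_ : Fintype L)
      (_ : Membership P L) (_ : ProjectivePlane P L),
      C * (Fintype.card (P ⊕ L) : ℝ) ^ c < ({D | IsKDIS (incGraph P L) k D}.ncard : ℝ)) ∧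
    (∀ k r s : ℕ, 1 ≤ k → 2 * k ≤ 2 ^ r → k + 1 ≤ 2 ^ s →
      ∃ (P L : Type) (_ : Fintype P) (_ : Fintype L) (_ : Membership P L)
        (_ : ProjectivePlane P L),
        Fintype.card P = (2 ^ (2 * r + s)) ^ 2 + 2 ^ (2 * r + s) + 1 ∧
        Fintype.card L = (2 ^ (2 * r + s)) ^ 2 + 2 ^ (2 * r + s) + 1 ∧
        2 ^ (r * (r + s)) ≤ {D | IsKDIS (incGraph P L) k D}.ncard) := by
  refine ⟨?_, fun k r s hk hkr hks => exists_plane k r s hk hkr hks⟩
  intro k hk C c
  obtain ⟨C', hC'⟩ := exists_nat_ge C
  obtain ⟨c', hc'⟩ := exists_nat_ge c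
  obtain ⟨r, hr⟩ : ∃ r, r = 4 * c' + C' + (2 * k + 3) * c' + k + 1 := ⟨_, rfl⟩
  have hkr : 2 * k ≤ 2 ^ r := by
    have h1 : k < 2 ^ k := Nat.lt_two_pow_self
    have h2 : 2 ^ (k + 1) ≤ 2 ^ r := Nat.pow_le_pow_right (by norm_num) (by omega)
    rw [pow_succ] at h2
    omega
  have hks : k + 1 ≤ 2 ^ k := Nat.lt_two_pow_self
  obtain ⟨P, L, hP, hL, hM, hPP, h1, h2, h3⟩ := exists_plane k r k hk hkr hks
  refine ⟨P, L, hP, hL, hM, hPP, ?_⟩
  have hn : Fintype.card (P ⊕ L) = 2 * ((2 ^ (2 * r + k)) ^ 2 + 2 ^ (2 * r + k) + 1) := by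
    rw [Fintype.card_sum, h1, h2]; ring
  have hn1 : Fintype.card (P ⊕ L) ≤ 2 ^ (4 * r + 2 * k + 3) := by
    rw [hn]
    have h4 : 1 ≤ 2 ^ (2 * r + k) := Nat.one_le_two_pow
    have h5 : 2 ^ (4 * r + 2 * k + 3) = 8 * (2 ^ (2 * r + k)) ^ 2 := by
      rw [pow_add 2 (4 * r + 2 * k) 3, ← pow_mul]
      have : 4 * r + 2 * k = (2 * r + k) * 2 := by ring
      rw [this]; ring
    rw [h5]
    nlinarith
  have hn0 : 1 ≤ Fintype.card (P ⊕ L) := by
    rw [hn]
    exact Nat.one_le_iff_ne_zero.2 (by positivity)
  have hnat : C' * (Fintype.card (P ⊕ L)) ^ c' < 2 ^ (r * (r + k)) := by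
    have h6 : C' < 2 ^ C' := Nat.lt_two_pow_self
    have h7 : (Fintype.card (P ⊕ L)) ^ c' ≤ 2 ^ ((4 * r + 2 * k + 3) * c') := by
      rw [pow_mul]; exact Nat.pow_le_pow_left hn1 c'
    calc C' * (Fintype.card (P ⊕ L)) ^ c' ≤ C' * 2 ^ ((4 * r + 2 * k + 3) * c') :=
          Nat.mul_le_mul_left _ h7
      _ < 2 ^ C' * 2 ^ ((4 * r + 2 * k + 3) * c') :=
          Nat.mul_lt_mul_of_pos_right h6 (by positivity)
      _ = 2 ^ (C' + (4 * r + 2 * k + 3) * c') := by rw [pow_add]
      _ ≤ 2 ^ (r * (r + k)) := by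
          apply Nat.pow_le_pow_right (by norm_num)
          have hA : (C' + (2 * k + 3) * c') * 1 ≤ (C' + (2 * k + 3) * c') * r :=
            Nat.mul_le_mul_left _ (by omega)
          have hB : (4 * c' + (C' + (2 * k + 3) * c')) * r ≤ r * r :=
            Nat.mul_le_mul_right _ (by omega)
          have hC : 0 ≤ r * k := Nat.zero_le _
          nlinarith
  have hreal : C * (Fintype.card (P ⊕ L) : ℝ) ^ c ≤ C' * (Fintype.card (P ⊕ L) : ℝ) ^ c' := by
    have hb : (1 : ℝ) ≤ (Fintype.card (P ⊕ L) : ℝ) := by exact_mod_cast hn0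
    have h9 : (Fintype.card (P ⊕ L) : ℝ) ^ c ≤ (Fintype.card (P ⊕ L) : ℝ) ^ (c' : ℝ) :=
      Real.rpow_le_rpow_of_exponent_le hb hc'
    rw [Real.rpow_natCast] at h9
    have h10 : (0 : ℝ) ≤ (Fintype.card (P ⊕ L) : ℝ) ^ c := by positivity
    exact mul_le_mul hC' h9 h10 (Nat.cast_nonneg _)
  calc C * (Fintype.card (P ⊕ L) : ℝ) ^ c ≤ C' * (Fintype.card (P ⊕ L) : ℝ) ^ c' := hreal
    _ < ((2 ^ (r * (r + k)) : ℕ) : ℝ) := by exact_mod_cast hnat
    _ ≤ _ := by exact_mod_cast h3

end Pool.Agent.Results.MP_a51b5f_co.SubspaceFamily
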